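import Mathlib
import Pool.Agent.Lib.MP_7e3c50_an.Defs
import Pool.Agent.Lib.MP_7e3c50_an.Proof

set_option autoImplicit false

open MeasureTheory Set Filter Topology RCLike
open scoped InnerProductSpace ENNReal
open Pool.Agent.Lib.MP_7e3c50_an

namespace Pool.Agent.Results.MP_7e3c50_an.ExpDecay

variable {𝕜 H : Type*} [RCLike 𝕜] [NormedAddCommGroup H] [InnerProductSpace 𝕜 H]
  [CompleteSpace H] [NormedSpace ℝ H] [IsScalarTower ℝ 𝕜 H]

/-- **Main theorem.** Let `D = (A, B, V, u⁺)` be data satisfying (H1), (H3), (H4), (H5).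

Part 1. There are `ε > 0` and `β > 0` such that every solution `u` of `A u' = Q(u)` on `[0, ∞)`
with `ess sup ‖u - u⁺‖ ≤ ε` converges pointwise exponentially, `‖u(t) - u∞‖ ≤ C exp(-β t)` for
almost every `t ≥ 0`, to some equilibrium `u∞` (`Q(u∞) = 0`) with `‖u∞ - u⁺‖ ≤ ε`. Moreover
`u∞ = u⁺`, that is `w = u - u⁺` itself decays pointwise exponentially, exactly when `w` is square
integrable on `[0, ∞)`, and exactly when the conserved quantity `P A w` vanishes, `P` being the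
orthogonal projection onto the orthogonal complement of `V`.

Part 2. The limit `u∞` need not be `u⁺`: arbitrarily close to `u⁺` there are constant solutions
`u = v` with `v ≠ u⁺`. -/
theorem result (D : KineticData 𝕜 H) :
    (∃ ε : ℝ, 0 < ε ∧ ∃ β : ℝ, 0 < β ∧ ∀ u : ℝ → H, D.IsSolution u →
      (∀ᵐ t ∂(volume.restrict (Ici (0 : ℝ))), ‖u t - D.uplus‖ ≤ ε) →
      ∃ uinf : H, D.Q uinf = 0 ∧ ‖uinf - D.uplus‖ ≤ ε ∧
        (∃ C : ℝ, ∀ᵐ t ∂(volume.restrict (Ici (0 : ℝ))),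
          ‖u t - uinf‖ ≤ C * Real.exp (-β * t)) ∧
        (uinf = D.uplus ↔ MemLp (fun t => u t - D.uplus) 2 (volume.restrict (Ici (0 : ℝ)))) ∧
        (uinf = D.uplus ↔ ∀ᵐ t ∂(volume.restrict (Ici (0 : ℝ))),
          D.Vᗮ.orthogonalProjectionOnto (D.A (u t - D.uplus)) = 0)) ∧
    (∀ η : ℝ, 0 < η → ∃ v : H, v ≠ D.uplus ∧ ‖v - D.uplus‖ ≤ η ∧
      D.IsSolution (fun _ => v)) :=
  main_theorem D

end Pool.Agent.Results.MP_7e3c50_an.ExpDecay
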